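import Pool.Agent.H.MP_2da123_co.helper61.LowerJoin

/-!
# Lower bound for the dimension of polytopal joins: dimension three
-/

open Set

namespace Pool.Agent.H.MP_2da123_co.S61

theorem dim3_cases {V : Type} [Fintype V] {G : SimpleGraph V} {n : ℕ} (hn : 1 ≤ n)
    (h : IsPolytopal 3 (joinComplete G n)) (hV : 3 ≤ Fintype.card V) :
    IsHamOuterplanar G ∨ IsLongPath G := by
  classical
  obtain ⟨p, -, hadj, hk⟩ := config_of_polytopal hn h
  set k : V ⊕ Fin n := Sum.inr ⟨0, hn⟩ with hkdef
  have hinlk : ∀ v : V, (Sum.inl v : V ⊕ Fin n) ≠ k := by intro v; simp [hkdef]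
  set ι : V → {w // w ≠ k} := fun v => ⟨Sum.inl v, hinlk v⟩ with hι
  have hιinj : Function.Injective ι := by
    intro a b hab
    have := congrArg Subtype.val hab
    exact Sum.inl_injective this
  have hcard : Fintype.card V ≤ Fintype.card {w // w ≠ k} := Fintype.card_le_of_injective ι hιinj
  have hadjU : ∀ u u' : {w // w ≠ k}, u ≠ u' →
      ((joinComplete G n).Adj u u' ↔ EExp p u u') := fun u u' h =>
    hadj u u' (fun h' => h (Subtype.ext h'))
  rcases Nat.lt_or_ge n 2 with hn2 | hn2
  · -- n = 1
    have hn1 : n = 1 := by omega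
    subst hn1
    left
    have hιsurj : Function.Surjective ι := by
      rintro ⟨(v | i), hw⟩
      · exact ⟨v, rfl⟩
      · exact absurd (by rw [hkdef]; congr 1; exact Subsingleton.elim _ _) hw
    have hVne : Nonempty V := Fintype.card_pos_iff.1 (by omega)
    obtain ⟨v0⟩ := hVne
    obtain ⟨e, -, hcyc, hnc⟩ := univ_structure hk (ι v0) rfl (by omega)
    set E : V ≃ {w // w ≠ k} := Equiv.ofBijective ι ⟨hιinj, hιsurj⟩ with hE
    refine ⟨Fintype.card {w // w ≠ k}, e.trans E.symm, by omega, ?_, ?_⟩
    · intro i j hij
      have h1 := hcyc i j hij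
      have hne : e i ≠ e j := by
        intro h
        have h2 := e.injective h
        have h3 : (i : ℕ) = j := by rw [h2]
        have := i.2
        rcases Nat.lt_or_ge ((i : ℕ) + 1) (Fintype.card {w // w ≠ k}) with h4 | h4
        · rw [Nat.mod_eq_of_lt h4] at hij; omega
        · have h5 : (i : ℕ) + 1 = Fintype.card {w // w ≠ k} := by omega
          rw [h5, Nat.mod_self] at hij; omega
      have h2 := (hadjU _ _ hne).2 h1
      have key : ∀ t, ((e t : {w // w ≠ k}) : V ⊕ Fin 1) = Sum.inl (E.symm (e t)) := by
        intro t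
        conv_lhs => rw [← E.apply_symm_apply (e t)]
        rfl
      rw [key i, key j] at h2
      exact h2
    · rintro i j l q hij hjl hlq ⟨h1, h2⟩
      apply hnc i j l q hij hjl hlq
      have key : ∀ t, ((e t : {w // w ≠ k}) : V ⊕ Fin 1) = Sum.inl (E.symm (e t)) := by
        intro t
        conv_lhs => rw [← E.apply_symm_apply (e t)]
        rfl
      have hil : i < l := hij.trans hjl
      have hjq : j < q := hjl.trans hlq
      constructor
      · rw [← hadjU _ _ (fun h => hil.ne (e.injective h)), key i, key l]
        exact h1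
      · rw [← hadjU _ _ (fun h => hjq.ne (e.injective h)), key j, key q]
        exact h2
  · -- n ≥ 2
    have hone : (Sum.inr ⟨1, by omega⟩ : V ⊕ Fin n) ≠ k := by
      rw [hkdef]; intro h
      have := Sum.inr_injective h
      simp [Fin.ext_iff] at this
    set u0 : {w // w ≠ k} := ⟨Sum.inr ⟨1, by omega⟩, hone⟩ with hu0
    obtain ⟨m, hm⟩ : ∃ m, Fintype.card {w // w ≠ k} = m := ⟨_, rfl⟩
    obtain ⟨e, he0, hcyc, hnc⟩ := univ_structure hk u0 hm (by omega)
    rw [hm] at hcard
    have huniv : ∀ u, u ≠ u0 → (joinComplete G n).Adj u0 u := by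
      rintro ⟨(v | i), hw⟩ hne
      · trivial
      · intro hi
        apply hne
        apply Subtype.ext
        exact congrArg Sum.inr hi.symm
    -- adjacency along the order
    have hA : ∀ i j : Fin m, 0 < (i : ℕ) → i < j →
        ((joinComplete G n).Adj (e i) (e j) ↔ (j : ℕ) = (i : ℕ) + 1) := by
      intro i j hi hij
      have hne : e i ≠ e j := fun h => hij.ne (e.injective h)
      have hij' : (i : ℕ) < j := hij
      have hj := j.2
      constructor
      · intro hadj'
        by_contra hcon
        have hlt : (i : ℕ) + 1 < j := by omega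
        let l : Fin m := ⟨(i : ℕ) + 1, by omega⟩
        have h0l : (⟨0, by omega⟩ : Fin m) < l := Nat.succ_pos _
        apply hnc ⟨0, by omega⟩ i l j hi (Nat.lt_succ_self _) hlt
        constructor
        · rw [he0]
          have hel : e l ≠ u0 := by
            rw [← he0]; exact fun h => h0l.ne' (e.injective h)
          exact (hadjU u0 (e l) hel.symm).1 (huniv _ hel)
        · exact (hadjU _ _ hne).1 hadj'
      · intro hj1
        rw [hadjU _ _ hne]
        apply hcyc
        rw [Nat.mod_eq_of_lt (by omega)]
        exact hj1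
    -- positions
    set pos : {w // w ≠ k} → ℕ := fun u => (e.symm u : Fin m) with hpos
    have hposinj : Function.Injective pos := by
      intro a b hab
      exact e.symm.injective (Fin.ext hab)
    have hposlt : ∀ u, pos u < m := fun u => (e.symm u).2
    have hpos0 : ∀ u, u ≠ u0 → 0 < pos u := by
      intro u hu
      rcases Nat.eq_zero_or_pos (pos u) with h0 | h0
      · exfalso
        apply hu
        have : e.symm u = ⟨0, by omega⟩ := Fin.ext h0
        rw [← e.apply_symm_apply u, this, he0]
      · exact h0
    have hAdjPos : ∀ u u', u ≠ u0 → u' ≠ u0 → u ≠ u' →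
        ((joinComplete G n).Adj u u' ↔ (pos u + 1 = pos u' ∨ pos u' + 1 = pos u)) := by
      intro u u' hu hu' hne
      have hne' : pos u ≠ pos u' := fun h => hne (hposinj h)
      rcases lt_or_gt_of_ne hne' with hlt | hlt
      · have h1 := hA (e.symm u) (e.symm u') (hpos0 u hu) hlt
        rw [e.apply_symm_apply, e.apply_symm_apply] at h1
        rw [h1]
        show pos u' = pos u + 1 ↔ _
        omega
      · have h1 := hA (e.symm u') (e.symm u) (hpos0 u' hu') hlt
        rw [e.apply_symm_apply, e.apply_symm_apply] at h1
        rw [SimpleGraph.adj_comm, h1]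
        show pos u = pos u' + 1 ↔ _
        omega
    have hιu0 : ∀ v, ι v ≠ u0 := by
      intro v h
      have := congrArg Subtype.val h
      simp [hι, hu0] at this
    rcases Nat.lt_or_ge n 3 with hn3 | hn3
    · -- n = 2 : G is a path
      have hn' : n = 2 := by omega
      subst hn'
      right
      have hcardU : m = Fintype.card V + 1 := by
        rw [← hm, Fintype.card_subtype_compl, Fintype.card_sum, Fintype.card_fin,
          Fintype.card_subtype_eq]
        omega
      set N := Fintype.card V with hN
      set f : V → Fin N := fun v => ⟨pos (ι v) - 1, by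
        have := hposlt (ι v); have := hpos0 _ (hιu0 v); omega⟩ with hf
      have hfinj : Function.Injective f := by
        intro a b hab
        have h1 : pos (ι a) - 1 = pos (ι b) - 1 := by
          have := congrArg Fin.val hab
          exact this
        have := hpos0 _ (hιu0 a)
        have := hpos0 _ (hιu0 b)
        exact hιinj (hposinj (by omega))
      have hfbij : Function.Bijective f :=
        (Fintype.bijective_iff_injective_and_card f).2 ⟨hfinj, by rw [Fintype.card_fin]⟩
      refine ⟨N, hV, ⟨⟨Equiv.ofBijective f hfbij, ?_⟩⟩⟩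
      intro a b
      rw [Equiv.ofBijective_apply, Equiv.ofBijective_apply, SimpleGraph.pathGraph_adj]
      have hpa := hpos0 _ (hιu0 a)
      have hpb := hpos0 _ (hιu0 b)
      by_cases hab : a = b
      · subst hab
        simp
      · have hne : ι a ≠ ι b := fun h => hab (hιinj h)
        have h1 := hAdjPos (ι a) (ι b) (hιu0 a) (hιu0 b) hne
        have h2 : (joinComplete G 2).Adj (ι a) (ι b) ↔ G.Adj a b := Iff.rfl
        rw [← h2, h1]
        simp only [hf]
        omega
    · -- n ≥ 3 is impossible
      exfalso
      have htwo : (Sum.inr ⟨2, by omega⟩ : V ⊕ Fin n) ≠ k := by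
        rw [hkdef]; intro h
        have := Sum.inr_injective h
        simp [Fin.ext_iff] at this
      set u2 : {w // w ≠ k} := ⟨Sum.inr ⟨2, by omega⟩, htwo⟩ with hu2
      have hu20 : u2 ≠ u0 := by
        intro h
        have := congrArg Subtype.val h
        simp [hu2, hu0, Fin.ext_iff] at this
      have hall : ∀ v, pos u2 + 1 = pos (ι v) ∨ pos (ι v) + 1 = pos u2 := by
        intro v
        have hne : u2 ≠ ι v := by
          intro h
          have := congrArg Subtype.val h
          simp [hι, hu2] at this
        exact (hAdjPos u2 (ι v) hu20 (hιu0 v) hne).1 trivial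
      obtain ⟨x, y, z, hxy, hxz, hyz⟩ := Fintype.two_lt_card_iff.1 hV
      have h1 := hall x
      have h2 := hall y
      have h3 := hall z
      have n1 : pos (ι x) ≠ pos (ι y) := fun h => hxy (hιinj (hposinj h))
      have n2 : pos (ι x) ≠ pos (ι z) := fun h => hxz (hιinj (hposinj h))
      have n3 : pos (ι y) ≠ pos (ι z) := fun h => hyz (hιinj (hposinj h))
      omega

end Pool.Agent.H.MP_2da123_co.S61
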