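import Pool.Agent.H.MP_2da123_co.helper61.Bridge

/-!
# Small constructions for polytopal joins
-/

open Set

namespace Pool.Agent.H.MP_2da123_co.S61

theorem IsPolytopal.of_iso {V W : Type} {G : SimpleGraph V} {H : SimpleGraph W} {d : ℕ}
    (φ : G ≃g H) (h : IsPolytopal d H) : IsPolytopal d G := by
  obtain ⟨P, hP, ⟨ψ⟩⟩ := h
  exact ⟨P, hP, ⟨φ.trans ψ⟩⟩

/-- The vertices of the standard simplex. -/
def simplexPt (d : ℕ) (o : Option (Fin d)) : Eu d :=
  match o with
  | none => 0
  | some i => Pi.single i 1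

theorem affineSpan_eq_top_of_zero_mem {d : ℕ} {S : Set (Eu d)} (h0 : (0 : Eu d) ∈ S)
    (h : Submodule.span ℝ S = ⊤) : affineSpan ℝ S = ⊤ := by
  rw [AffineSubspace.affineSpan_eq_top_iff_vectorSpan_eq_top_of_nonempty ℝ (Eu d) (Eu d) ⟨0, h0⟩]
  rw [eq_top_iff, ← h, Submodule.span_le]
  intro x hx
  have := vsub_mem_vectorSpan ℝ hx h0
  simpa using this

theorem simplex_polytopal (d : ℕ) : IsPolytopal d (⊤ : SimpleGraph (Option (Fin d))) := by
  classical
  rw [isPolytopal_iff]
  refine ⟨simplexPt d, ?_, ?_, ?_⟩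
  · apply affineSpan_eq_top_of_zero_mem (S := range (simplexPt d)) ⟨none, rfl⟩
    rw [eq_top_iff, ← (Pi.basisFun ℝ (Fin d)).span_eq, Submodule.span_le]
    rintro _ ⟨i, rfl⟩
    apply Submodule.subset_span
    refine ⟨some i, ?_⟩
    simp [simplexPt]
  · intro w
    rcases w with _ | i
    · refine ⟨-∑ i : Fin d, (LinearMap.proj i : Eu d →ₗ[ℝ] ℝ), ?_⟩
      rintro (_ | j) hne
      · exact absurd rfl hne
      · simp [simplexPt, LinearMap.sum_apply]
    · refine ⟨LinearMap.proj i, ?_⟩
      rintro (_ | j) hne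
      · simp [simplexPt]
      · have hij : i ≠ j := fun h => hne (by rw [h])
        simp [simplexPt, hij]
  · intro w w' hne
    rw [SimpleGraph.top_adj]
    constructor
    · intro _
      -- it suffices to treat ordered cases
      have case1 : ∀ i : Fin d, EExp (simplexPt d) none (some i) := by
        intro i
        refine ⟨-(∑ j : Fin d, (LinearMap.proj j : Eu d →ₗ[ℝ] ℝ)) + LinearMap.proj i, ?_, ?_⟩
        · simp [simplexPt, LinearMap.sum_apply]
        · rintro (_ | j) h1 h2
          · exact absurd rfl h1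
          · have hij : i ≠ j := fun h => h2 (by rw [h])
            simp [simplexPt, LinearMap.sum_apply, Pi.single_apply, hij]
      rcases w with _ | i <;> rcases w' with _ | j
      · exact absurd rfl hne
      · exact case1 j
      · exact (case1 i).symm
      · have hij : i ≠ j := fun h => hne (by rw [h])
        refine ⟨(LinearMap.proj i : Eu d →ₗ[ℝ] ℝ) + LinearMap.proj j, ?_, ?_⟩
        · simp [simplexPt, hij, hij.symm]
        · rintro (_ | l) h1 h2
          · simp [simplexPt, hij.symm]
          · have hil : i ≠ l := fun h => h1 (by rw [h])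
            have hjl : j ≠ l := fun h => h2 (by rw [h])
            simp [simplexPt, hij.symm, hil, hjl]
    · intro _; exact hne

theorem complete_polytopal {W : Type} [Fintype W] {d : ℕ} (hc : Fintype.card W = d + 1)
    (G : SimpleGraph W) (hG : ∀ x y, x ≠ y → G.Adj x y) : IsPolytopal d G := by
  have E : W ≃ Option (Fin d) := Fintype.equivOfCardEq (by simp [hc])
  refine IsPolytopal.of_iso ⟨E, ?_⟩ (simplex_polytopal d)
  intro a b
  rw [SimpleGraph.top_adj]
  constructor
  · intro h; exact hG a b (fun h' => h (by rw [h']))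
  · intro h h'; exact h.ne (E.injective h')

/-- `(G + K_n) + K_1 = G + K_{n+1}`. -/
noncomputable def joinSucc {V : Type} (G : SimpleGraph V) (n : ℕ) :
    joinComplete G (n + 1) ≃g joinComplete (joinComplete G n) 1 where
  toEquiv := ((Equiv.sumCongr (Equiv.refl V) finSumFinEquiv.symm).trans
    (Equiv.sumAssoc V (Fin n) (Fin 1)).symm)
  map_rel_iff' := by
    have key : ∀ i : Fin (n + 1), (∃ j : Fin n, i = Fin.castAdd 1 j) ∨ i = Fin.natAdd n 0 := by
      intro i
      rcases Nat.lt_or_ge i n with h | h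
      · left; exact ⟨⟨i, h⟩, Fin.ext rfl⟩
      · right; apply Fin.ext; simp; omega
    rintro (a | a) (b | b)
    · exact Iff.rfl
    · rcases key b with ⟨j, rfl⟩ | rfl <;> simp [joinComplete]
    · rcases key a with ⟨j, rfl⟩ | rfl <;> simp [joinComplete]
    · rcases key a with ⟨j, rfl⟩ | rfl <;> rcases key b with ⟨l, rfl⟩ | rfl
      · simp [joinComplete]
      · simp [joinComplete, Fin.ext_iff]; omega
      · simp [joinComplete, Fin.ext_iff]; omega
      · simp [joinComplete]

theorem joinSucc_polytopal {V : Type} {G : SimpleGraph V} {n d : ℕ}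
    (h : IsPolytopal d (joinComplete (joinComplete G n) 1)) :
    IsPolytopal d (joinComplete G (n + 1)) :=
  IsPolytopal.of_iso (joinSucc G n) h

/-- A path plus a universal vertex is Hamiltonian outerplanar. -/
theorem path_join_ham {V : Type} {G : SimpleGraph V} (h : IsLongPath G) :
    IsHamOuterplanar (joinComplete G 1) := by
  obtain ⟨m, hm, ⟨φ⟩⟩ := h
  set e : Fin (m + 1) ≃ V ⊕ Fin 1 :=
    finSumFinEquiv.symm.trans (Equiv.sumCongr φ.toEquiv.symm (Equiv.refl _)) with he
  have e1 : ∀ i : Fin m, e (Fin.castAdd 1 i) = Sum.inl (φ.symm i) := by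
    intro i; simp [he]; rfl
  have e2 : e (Fin.natAdd m 0) = Sum.inr 0 := by simp [he]
  have key : ∀ i : Fin (m + 1), (∃ j : Fin m, i = Fin.castAdd 1 j) ∨ i = Fin.natAdd m 0 := by
    intro i
    rcases Nat.lt_or_ge i m with h | h
    · left; exact ⟨⟨i, h⟩, Fin.ext rfl⟩
    · right; apply Fin.ext; simp; omega
  have hadj : ∀ i j : Fin m, G.Adj (φ.symm i) (φ.symm j) ↔ (i : ℕ) + 1 = j ∨ (j : ℕ) + 1 = i := by
    intro i j
    rw [φ.symm.map_adj_iff, SimpleGraph.pathGraph_adj]
  refine ⟨m + 1, e, by omega, ?_, ?_⟩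
  · intro i j hij
    rcases key i with ⟨i', rfl⟩ | rfl <;> rcases key j with ⟨j', rfl⟩ | rfl
    · rw [e1, e1]
      show G.Adj _ _
      rw [hadj]
      have h1 : ((Fin.castAdd 1 i' : Fin (m + 1)) : ℕ) = i' := rfl
      have h2 : ((Fin.castAdd 1 j' : Fin (m + 1)) : ℕ) = j' := rfl
      rw [h1, h2, Nat.mod_eq_of_lt (by omega)] at hij
      left; exact hij.symm
    · rw [e1, e2]; trivial
    · rw [e1, e2]; trivial
    · exfalso
      have h1 : ((Fin.natAdd m (0 : Fin 1) : Fin (m + 1)) : ℕ) = m := rfl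
      rw [h1, Nat.mod_self] at hij
      omega
  · rintro i j k l hij hjk hkl ⟨h1, -⟩
    have hk : (k : ℕ) < m := by
      have := l.2
      have : (k : ℕ) < l := hkl
      omega
    have hi : (i : ℕ) < m := by
      have : (i : ℕ) < j := hij
      have : (j : ℕ) < k := hjk
      omega
    have h2 : G.Adj (φ.symm ⟨i, hi⟩) (φ.symm ⟨k, hk⟩) := by
      have h3 := e1 ⟨i, hi⟩
      have h4 := e1 ⟨k, hk⟩
      have h5 : Fin.castAdd 1 (⟨i, hi⟩ : Fin m) = i := Fin.ext rfl
      have h6 : Fin.castAdd 1 (⟨k, hk⟩ : Fin m) = k := Fin.ext rfl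
      rw [h5] at h3
      rw [h6] at h4
      rw [h3, h4] at h1
      exact h1
    rw [hadj] at h2
    have : (i : ℕ) < j := hij
    have : (j : ℕ) < k := hjk
    simp only at h2
    omega

/-- Two isolated vertices plus `K_2` form a Hamiltonian outerplanar graph. -/
theorem two_join_ham {V : Type} [Fintype V] {G : SimpleGraph V} (hc : Fintype.card V = 2)
    (hG : G = ⊥) : IsHamOuterplanar (joinComplete G 2) := by
  subst hG
  rw [← Nat.card_eq_fintype_card] at hc
  obtain ⟨x, y, hxy, huniv⟩ := Nat.card_eq_two_iff.1 hc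
  set f : Fin 4 → V ⊕ Fin 2 := ![Sum.inl x, Sum.inr 0, Sum.inl y, Sum.inr 1] with hf
  have hinj : Function.Injective f := by
    intro a b hab
    fin_cases a <;> fin_cases b <;> simp_all
  have hsurj : Function.Surjective f := by
    rintro (v | i)
    · have : v ∈ ({x, y} : Set V) := by rw [huniv]; trivial
      rcases this with rfl | h
      · exact ⟨0, rfl⟩
      · have : v = y := h
        subst this
        exact ⟨2, rfl⟩
    · fin_cases i
      · exact ⟨1, rfl⟩
      · exact ⟨3, rfl⟩
  refine ⟨4, Equiv.ofBijective f ⟨hinj, hsurj⟩, by norm_num, ?_, ?_⟩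
  · intro i j hij
    fin_cases i <;> fin_cases j <;> first | (exfalso; revert hij; decide) | trivial
  · rintro i j k l hij hjk hkl ⟨h1, -⟩
    have hij' : (i : ℕ) < j := hij
    have hjk' : (j : ℕ) < k := hjk
    have hkl' : (k : ℕ) < l := hkl
    have hl := l.2
    have hi : i = 0 := by apply Fin.ext; show (i : ℕ) = 0; omega
    have hk : k = 2 := by apply Fin.ext; show (k : ℕ) = 2; omega
    subst hi; subst hk
    exact h1

end Pool.Agent.H.MP_2da123_co.S61
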