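import Pool.Agent.H.MP_2da123_co.Ham3
import Pool.Agent.H.MP_2da123_co.helper61.Small
import Pool.Agent.H.MP_2da123_co.helper61.LowerJoin3

/-!
# Assembly of the exact value of `d(G)`
-/

open Set

namespace Pool.Agent.H.MP_2da123_co.S61

theorem isLeast_joinDim (V : Type) [Fintype V] (G : SimpleGraph V) :
    IsLeast (joinDims G) (joinDim G) := by
  classical
  constructor
  · -- membership
    unfold joinDim
    split_ifs with h0 h1 h2 h3
    · refine ⟨1, le_rfl, complete_polytopal ?_ _ ?_⟩
      · rw [Fintype.card_sum, h0, Fintype.card_fin]
      · have hemp : IsEmpty V := Fintype.card_eq_zero_iff.1 h0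
        rintro (a | a) (b | b) hne
        · exact (hemp.false a).elim
        · trivial
        · trivial
        · exact absurd (by rw [Subsingleton.elim a b]) hne
    · refine ⟨1, le_rfl, complete_polytopal ?_ _ ?_⟩
      · rw [Fintype.card_sum, h1, Fintype.card_fin]
      · have hsub : Subsingleton V := by
          rw [← Fintype.card_le_one_iff_subsingleton]; omega
        rintro (a | a) (b | b) hne
        · exact absurd (by rw [Subsingleton.elim a b]) hne
        · trivial
        · trivial
        · exact absurd (by rw [Subsingleton.elim a b]) hne
    · refine ⟨1, le_rfl, complete_polytopal ?_ _ ?_⟩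
      · rw [Fintype.card_sum, h2.1, Fintype.card_fin]
      · rintro (a | a) (b | b) hne
        · show G.Adj a b
          rw [h2.2, SimpleGraph.top_adj]
          exact fun h => hne (by rw [h])
        · trivial
        · trivial
        · exact absurd (by rw [Subsingleton.elim a b]) hne
    · rcases h3 with h3 | h3 | h3
      · exact ⟨1, le_rfl, ham3 G h3⟩
      · refine ⟨2, by norm_num, joinSucc_polytopal ?_⟩
        exact ham3 _ (path_join_ham h3)
      · refine ⟨3, by norm_num, joinSucc_polytopal ?_⟩
        exact ham3 _ (two_join_ham h3.1 h3.2)
    · exact four_mem_joinDims G (by omega)
  · -- lower bound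
    rintro d ⟨n, hn, hd⟩
    rcases Nat.eq_zero_or_pos (Fintype.card V) with hz | hpos
    · unfold joinDim
      rw [if_pos hz]; exact Nat.zero_le _
    have hne0 : Fintype.card V ≠ 0 := hpos.ne'
    rcases Nat.lt_or_ge d 4 with h4 | h4
    · have hd4 : d = 0 ∨ d = 1 ∨ d = 2 ∨ d = 3 := by omega
      rcases hd4 with rfl | rfl | rfl | rfl
      · have : Nonempty V := Fintype.card_pos_iff.1 hpos
        exact absurd hd (fun h => dim0_false hn h)
      · have := dim1_card hn hd
        unfold joinDim
        rw [if_neg hne0, if_pos (by omega)]
      · unfold joinDim
        rw [if_neg hne0]
        rcases dim2_cases hn hd with h | h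
        · rw [if_pos (by omega)]; norm_num
        · rw [if_neg (by omega), if_pos h]
      · unfold joinDim
        rw [if_neg hne0]
        rcases Nat.lt_or_ge (Fintype.card V) 3 with hc | hc
        · split_ifs with h1 h2 h3
          · norm_num
          · norm_num
          · exact le_rfl
          · exfalso
            have hc2 : Fintype.card V = 2 := by omega
            apply h3
            right; right
            refine ⟨hc2, ?_⟩
            have hcn : Nat.card V = 2 := by rw [Nat.card_eq_fintype_card]; exact hc2
            obtain ⟨x, y, hxy, huniv⟩ := Nat.card_eq_two_iff.1 hcn
            have hV : ∀ v : V, v = x ∨ v = y := by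
              intro v
              have : v ∈ ({x, y} : Set V) := by rw [huniv]; trivial
              exact this
            by_contra hbot
            apply h2
            refine ⟨hc2, ?_⟩
            have hadj : G.Adj x y := by
              by_contra hna
              apply hbot
              ext a b
              rw [SimpleGraph.bot_adj, iff_false]
              intro hab
              rcases hV a with rfl | rfl <;> rcases hV b with rfl | rfl
              · exact hab.ne rfl
              · exact hna hab
              · exact hna hab.symm
              · exact hab.ne rfl
            ext a b
            rw [SimpleGraph.top_adj]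
            refine ⟨fun h => h.ne, fun hab => ?_⟩
            rcases hV a with rfl | rfl <;> rcases hV b with rfl | rfl
            · exact absurd rfl hab
            · exact hadj
            · exact hadj.symm
            · exact absurd rfl hab
        · have h := dim3_cases hn hd hc
          have h' : IsHamOuterplanar G ∨ IsLongPath G ∨ (Fintype.card V = 2 ∧ G = ⊥) := by
            rcases h with h | h
            · exact Or.inl h
            · exact Or.inr (Or.inl h)
          split_ifs with h1 h2
          · norm_num
          · norm_num
          · exact le_rfl
    · refine le_trans ?_ h4
      unfold joinDim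
      split_ifs <;> norm_num

end Pool.Agent.H.MP_2da123_co.S61
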