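import Pool.Agent.H.MP_2da123_co.Defs

/-!
# Bridge between polytope graphs and finite point configurations with linear functionals
-/

open Set

namespace Pool.Agent.H.MP_2da123_co.S61

variable {W : Type} {d : ℕ}

/-- Some linear functional is maximised over the configuration `p` exactly at `w`. -/
def VExp (p : W → (Fin d → ℝ)) (w : W) : Prop :=
  ∃ f : (Fin d → ℝ) →ₗ[ℝ] ℝ, ∀ z, z ≠ w → f (p z) < f (p w)

/-- Some linear functional is maximised over the configuration `p` exactly at `w` and `w'`. -/
def EExp (p : W → (Fin d → ℝ)) (w w' : W) : Prop :=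
  ∃ f : (Fin d → ℝ) →ₗ[ℝ] ℝ, f (p w) = f (p w') ∧ ∀ z, z ≠ w → z ≠ w' → f (p z) < f (p w)

theorem EExp.symm {p : W → (Fin d → ℝ)} {w w' : W} (h : EExp p w w') : EExp p w' w := by
  obtain ⟨f, hf, hz⟩ := h
  exact ⟨f, hf.symm, fun z h1 h2 => by rw [← hf]; exact hz z h2 h1⟩

theorem mem_convexHull_range_iff {E : Type*} [AddCommGroup E] [Module ℝ E] [Fintype W]
    (p : W → E) (x : E) :
    x ∈ convexHull ℝ (range p) ↔
      ∃ c : W → ℝ, (∀ w, 0 ≤ c w) ∧ ∑ w, c w = 1 ∧ ∑ w, c w • p w = x := by
  classical
  constructor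
  · intro hx
    have hsub : convexHull ℝ (range p) ⊆
        {x : E | ∃ c : W → ℝ, (∀ w, 0 ≤ c w) ∧ ∑ w, c w = 1 ∧ ∑ w, c w • p w = x} := by
      apply convexHull_min
      · rintro _ ⟨w, rfl⟩
        refine ⟨Pi.single w 1, ?_, ?_, ?_⟩
        · intro z
          by_cases h : z = w
          · subst h; simp
          · simp [Pi.single_eq_of_ne h]
        · simp
        · rw [Finset.sum_eq_single w]
          · simp
          · intro z _ hz
            simp [Pi.single_eq_of_ne hz]
          · intro h; exact absurd (Finset.mem_univ w) h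
      · rintro x ⟨c, hc0, hc1, rfl⟩ y ⟨e, he0, he1, rfl⟩ a b ha hb hab
        refine ⟨fun w => a * c w + b * e w, ?_, ?_, ?_⟩
        · intro w
          have := hc0 w; have := he0 w
          positivity
        · rw [Finset.sum_add_distrib, ← Finset.mul_sum, ← Finset.mul_sum, hc1, he1]
          linarith
        · simp only [add_smul, Finset.sum_add_distrib, mul_smul, ← Finset.smul_sum]
    exact hsub hx
  · rintro ⟨c, hc0, hc1, rfl⟩
    exact mem_convexHull_of_exists_fintype c p hc0 hc1 (fun i => ⟨i, rfl⟩) rfl

theorem le_of_mem_convexHull_range {E : Type*} [AddCommGroup E] [Module ℝ E]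
    {p : W → E} {f : E →ₗ[ℝ] ℝ} {M : ℝ} (h : ∀ w, f (p w) ≤ M) {x : E}
    (hx : x ∈ convexHull ℝ (range p)) : f x ≤ M := by
  have hconv : Convex ℝ {x : E | f x ≤ M} := convex_halfSpace_le f.isLinear M
  have : convexHull ℝ (range p) ⊆ {x : E | f x ≤ M} := by
    apply convexHull_min _ hconv
    rintro _ ⟨w, rfl⟩
    exact h w
  exact this hx

theorem extreme_of_VExp [Finite W] {p : W → (Fin d → ℝ)} {w : W} (h : VExp p w) :
    p w ∈ (convexHull ℝ (range p)).extremePoints ℝ := by
  classical
  have := Fintype.ofFinite W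
  obtain ⟨f, hf⟩ := h
  apply exposedPoints_subset_extremePoints
  refine ⟨subset_convexHull ℝ _ ⟨w, rfl⟩, LinearMap.toContinuousLinearMap f, ?_⟩
  intro y hy
  have hle : ∀ z, f (p z) ≤ f (p w) := fun z => by
    by_cases hz : z = w
    · subst hz; exact le_rfl
    · exact (hf z hz).le
  refine ⟨le_of_mem_convexHull_range hle hy, ?_⟩
  intro hge
  have hge' : f (p w) ≤ f y := hge
  obtain ⟨c, hc0, hc1, rfl⟩ := (mem_convexHull_range_iff p y).1 hy
  rw [map_sum] at hge'
  simp only [map_smul, smul_eq_mul] at hge'
  have hsum : ∑ z, c z * (f (p w) - f (p z)) ≤ 0 := by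
    have : ∑ z, c z * (f (p w) - f (p z)) = f (p w) - ∑ z, c z * f (p z) := by
      simp only [mul_sub, Finset.sum_sub_distrib, ← Finset.sum_mul, hc1, one_mul]
    linarith
  have hnn : ∀ z ∈ Finset.univ, 0 ≤ c z * (f (p w) - f (p z)) := fun z _ =>
    mul_nonneg (hc0 z) (sub_nonneg.2 (hle z))
  have hzero := (Finset.sum_eq_zero_iff_of_nonneg hnn).1
    (le_antisymm hsum (Finset.sum_nonneg hnn))
  have hc : ∀ z, z ≠ w → c z = 0 := by
    intro z hz
    have := hzero z (Finset.mem_univ z)
    rcases mul_eq_zero.1 this with h | h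
    · exact h
    · have := hf z hz; linarith
  have hcw : c w = 1 := by
    rw [← hc1, Finset.sum_eq_single w (fun z _ hz => hc z hz)
      (fun h => absurd (Finset.mem_univ w) h)]
  rw [Finset.sum_eq_single w (fun z _ hz => by rw [hc z hz, zero_smul])
      (fun h => absurd (Finset.mem_univ w) h), hcw, one_smul]

theorem isExposed_segment_iff [Finite W] {p : W → (Fin d → ℝ)} (hv : ∀ w, VExp p w)
    (hinj : Function.Injective p) (w w' : W) :
    IsExposed ℝ (convexHull ℝ (range p)) (segment ℝ (p w) (p w')) ↔ EExp p w w' := by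
  classical
  have := Fintype.ofFinite W
  constructor
  · intro h
    obtain ⟨l, hl⟩ := h ⟨p w, left_mem_segment ℝ _ _⟩
    have h1 : ∀ y ∈ convexHull ℝ (range p), l y ≤ l (p w) := by
      have : p w ∈ segment ℝ (p w) (p w') := left_mem_segment ℝ _ _
      rw [hl] at this
      exact this.2
    have h2 : ∀ y ∈ convexHull ℝ (range p), l y ≤ l (p w') := by
      have : p w' ∈ segment ℝ (p w) (p w') := right_mem_segment ℝ _ _
      rw [hl] at this
      exact this.2
    have hmem : ∀ z, p z ∈ convexHull ℝ (range p) := fun z => subset_convexHull ℝ _ ⟨z, rfl⟩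
    refine ⟨(l : (Fin d → ℝ) →ₗ[ℝ] ℝ), le_antisymm (h2 _ (hmem w)) (h1 _ (hmem w')), ?_⟩
    intro z hz hz'
    refine lt_of_le_of_ne (h1 _ (hmem z)) ?_
    intro heq
    have hzs : p z ∈ segment ℝ (p w) (p w') := by
      rw [hl]
      refine ⟨hmem z, fun y hy => ?_⟩
      have : l (p z) = l (p w) := heq
      rw [this]
      exact h1 y hy
    have := (mem_extremePoints_iff_forall_segment.1 (extreme_of_VExp (hv z))).2 _ (hmem w) _
      (hmem w') hzs
    rcases this with h | h
    · exact hz (hinj h.symm)
    · exact hz' (hinj h.symm)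
  · rintro ⟨f, hfe, hf⟩ -
    have hle : ∀ z, f (p z) ≤ f (p w) := fun z => by
      by_cases hz : z = w
      · subst hz; exact le_rfl
      · by_cases hz' : z = w'
        · subst hz'; exact hfe.ge
        · exact (hf z hz hz').le
    refine ⟨LinearMap.toContinuousLinearMap f, ?_⟩
    ext x
    constructor
    · intro hx
      refine ⟨(convex_convexHull ℝ (range p)).segment_subset
        (subset_convexHull ℝ (range p) ⟨w, rfl⟩) (subset_convexHull ℝ (range p) ⟨w', rfl⟩) hx, ?_⟩
      intro y hy
      obtain ⟨a, b, ha, hb, hab, rfl⟩ := hx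
      have h1 : f (a • p w + b • p w') = f (p w) := by
        rw [map_add, map_smul, map_smul, ← hfe, smul_eq_mul, smul_eq_mul, ← add_mul, hab, one_mul]
      have h2 : f y ≤ f (p w) := le_of_mem_convexHull_range hle hy
      show f y ≤ f (a • p w + b • p w')
      rw [h1]; exact h2
    · rintro ⟨hx, hmax⟩
      have hge : f (p w) ≤ f x := hmax _ (subset_convexHull ℝ _ ⟨w, rfl⟩)
      obtain ⟨c, hc0, hc1, rfl⟩ := (mem_convexHull_range_iff p x).1 hx
      rw [map_sum] at hge
      simp only [map_smul, smul_eq_mul] at hge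
      have hsum : ∑ z, c z * (f (p w) - f (p z)) ≤ 0 := by
        have : ∑ z, c z * (f (p w) - f (p z)) = f (p w) - ∑ z, c z * f (p z) := by
          simp only [mul_sub, Finset.sum_sub_distrib, ← Finset.sum_mul, hc1, one_mul]
        linarith
      have hnn : ∀ z ∈ Finset.univ, 0 ≤ c z * (f (p w) - f (p z)) := fun z _ =>
        mul_nonneg (hc0 z) (sub_nonneg.2 (hle z))
      have hzero := (Finset.sum_eq_zero_iff_of_nonneg hnn).1
        (le_antisymm hsum (Finset.sum_nonneg hnn))
      have hc : ∀ z, z ≠ w → z ≠ w' → c z = 0 := by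
        intro z hz hz'
        have := hzero z (Finset.mem_univ z)
        rcases mul_eq_zero.1 this with h | h
        · exact h
        · have := hf z hz hz'; linarith
      have hxsub : ∑ z, c z • p z ∈ convexHull ℝ (range (fun z : ({w, w'} : Finset W) => p z)) := by
        rw [mem_convexHull_range_iff]
        refine ⟨fun z => c z, fun z => hc0 z, ?_, ?_⟩
        · rw [← hc1]
          rw [Finset.sum_coe_sort ({w, w'} : Finset W) (fun z => c z)]
          apply Finset.sum_subset (Finset.subset_univ _)
          intro z _ hz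
          simp only [Finset.mem_insert, Finset.mem_singleton, not_or] at hz
          exact hc z hz.1 hz.2
        · rw [Finset.sum_coe_sort ({w, w'} : Finset W) (fun z => c z • p z)]
          apply Finset.sum_subset (Finset.subset_univ _)
          intro z _ hz
          simp only [Finset.mem_insert, Finset.mem_singleton, not_or] at hz
          rw [hc z hz.1 hz.2, zero_smul]
      rw [← convexHull_pair]
      refine convexHull_mono ?_ hxsub
      rintro _ ⟨⟨z, hz⟩, rfl⟩
      simp only [Finset.mem_insert, Finset.mem_singleton] at hz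
      rcases hz with rfl | rfl
      · left; rfl
      · right; rfl

theorem injective_of_VExp {p : W → (Fin d → ℝ)} (hv : ∀ w, VExp p w) : Function.Injective p := by
  intro a b hab
  by_contra hne
  obtain ⟨f, hf⟩ := hv a
  have := hf b (Ne.symm hne)
  rw [hab] at this
  exact lt_irrefl _ this

/-- Two different vertices of a finite configuration in which the pair is exposed. -/
theorem VExp_of_extreme [Finite W] {p : W → (Fin d → ℝ)} (hinj : Function.Injective p) {w : W}
    (h : p w ∈ (convexHull ℝ (range p)).extremePoints ℝ) : VExp p w := by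
  have h1 := ((convex_convexHull ℝ (range p)).mem_extremePoints_iff_mem_sdiff_convexHull_sdiff).1 h
  have hfin : (range p \ {p w}).Finite := (Set.finite_range p).subset sdiff_subset
  have hcl : IsClosed (convexHull ℝ (range p \ {p w})) := hfin.isClosed_convexHull ℝ
  have hnot : p w ∉ convexHull ℝ (range p \ {p w}) := by
    intro hmem
    apply h1.2
    refine convexHull_mono ?_ hmem
    exact sdiff_subset_sdiff_left (subset_convexHull ℝ _)
  obtain ⟨f, u, hfu, huw⟩ := geometric_hahn_banach_closed_point (convex_convexHull ℝ _) hcl hnot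
  refine ⟨(f : (Fin d → ℝ) →ₗ[ℝ] ℝ), fun z hz => ?_⟩
  have : p z ∈ convexHull ℝ (range p \ {p w}) :=
    subset_convexHull ℝ _ ⟨⟨z, rfl⟩, fun h => hz (hinj h)⟩
  exact (hfu _ this).trans huw

/-- The working characterisation of `d`-polytopal graphs in terms of points and functionals. -/
theorem isPolytopal_iff [Finite W] (G : SimpleGraph W) :
    IsPolytopal d G ↔ ∃ p : W → (Fin d → ℝ), affineSpan ℝ (range p) = ⊤ ∧ (∀ w, VExp p w) ∧
      ∀ w w', w ≠ w' → (G.Adj w w' ↔ EExp p w w') := by
  constructor
  · rintro ⟨P, ⟨⟨S, hS, hP⟩, hint⟩, ⟨φ⟩⟩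
    set p : W → (Fin d → ℝ) := fun w => (φ w : Fin d → ℝ) with hp
    have hinj : Function.Injective p := fun a b h => φ.injective (Subtype.ext h)
    have hrange : range p = P.extremePoints ℝ := by
      ext x
      constructor
      · rintro ⟨w, rfl⟩; exact (φ w).2
      · intro hx
        obtain ⟨w, hw⟩ := φ.surjective ⟨x, hx⟩
        exact ⟨w, by rw [hp]; simp only; rw [hw]⟩
    have hcomp : IsCompact P := by rw [hP]; exact hS.isCompact_convexHull ℝ
    have hconv : Convex ℝ P := by rw [hP]; exact convex_convexHull ℝ _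
    have hPhull : convexHull ℝ (range p) = P := by
      have h1 := closure_convexHull_extremePoints hcomp hconv
      rw [← hrange] at h1
      rw [← h1]
      exact (((Set.finite_range p).isClosed_convexHull ℝ).closure_eq).symm
    have hv : ∀ w, VExp p w := by
      intro w
      apply VExp_of_extreme hinj
      rw [hPhull]
      exact (φ w).2
    refine ⟨p, ?_, hv, ?_⟩
    · apply affineSpan_eq_top_of_nonempty_interior
      rw [hPhull]; exact hint
    · intro w w' hne
      rw [← isExposed_segment_iff hv hinj w w', hPhull, ← φ.map_adj_iff]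
      constructor
      · intro h; exact h.2
      · intro h; exact ⟨fun h' => hne (φ.injective h'), h⟩
  · rintro ⟨p, hspan, hv, hadj⟩
    have hinj := injective_of_VExp hv
    refine ⟨convexHull ℝ (range p), ⟨⟨range p, Set.finite_range p, rfl⟩, ?_⟩, ?_⟩
    · exact interior_convexHull_nonempty_iff_affineSpan_eq_top.2 hspan
    · refine ⟨⟨Equiv.ofBijective (fun w => ⟨p w, extreme_of_VExp (hv w)⟩) ⟨?_, ?_⟩, ?_⟩⟩
      · intro a b h
        exact hinj (Subtype.ext_iff.1 h)
      · rintro ⟨x, hx⟩
        obtain ⟨w, rfl⟩ := extremePoints_convexHull_subset hx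
        exact ⟨w, rfl⟩
      · intro a b
        simp only [Equiv.ofBijective_apply]
        constructor
        · rintro ⟨hne, hexp⟩
          have hab : a ≠ b := by
            rintro rfl; exact hne rfl
          exact (hadj a b hab).2 ((isExposed_segment_iff hv hinj a b).1 hexp)
        · intro h
          have hab : a ≠ b := h.ne
          exact ⟨fun h' => hab (hinj (Subtype.ext_iff.1 h')),
            (isExposed_segment_iff hv hinj a b).2 ((hadj a b hab).1 h)⟩

end Pool.Agent.H.MP_2da123_co.S61
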