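import Pool.Agent.H.MP_2da123_co.helper61.Bridge

/-!
# Configurations with a universal vertex in dimensions at most three
-/

open Set

namespace Pool.Agent.H.MP_2da123_co.S61

/-- The `3 × 3` determinant with columns `x y z`. -/
def D3 (x y z : Fin 3 → ℝ) : ℝ :=
  x 0 * (y 1 * z 2 - y 2 * z 1) - x 1 * (y 0 * z 2 - y 2 * z 0) + x 2 * (y 0 * z 1 - y 1 * z 0)

theorem lin3 (g : (Fin 3 → ℝ) →ₗ[ℝ] ℝ) : ∃ c : Fin 3 → ℝ, ∀ x, g x = c 0 * x 0 + c 1 * x 1 + c 2 * x 2 := by
  refine ⟨fun i => g (fun j => if i = j then 1 else 0), fun x => ?_⟩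
  rw [LinearMap.pi_apply_eq_sum_univ g x, Fin.sum_univ_three]
  simp only [smul_eq_mul]
  ring

/-- The linear functional with given coefficients. -/
def mk3 (c : Fin 3 → ℝ) : (Fin 3 → ℝ) →ₗ[ℝ] ℝ where
  toFun x := c 0 * x 0 + c 1 * x 1 + c 2 * x 2
  map_add' x y := by simp only [Pi.add_apply]; ring
  map_smul' r x := by simp only [Pi.smul_apply, smul_eq_mul, RingHom.id_apply]; ring

@[simp] theorem mk3_apply (c x : Fin 3 → ℝ) : mk3 c x = c 0 * x 0 + c 1 * x 1 + c 2 * x 2 := rfl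

theorem pluecker (g : (Fin 3 → ℝ) →ₗ[ℝ] ℝ) (a b x y : Fin 3 → ℝ) :
    g a * D3 b x y - g b * D3 a x y + g x * D3 a b y - g y * D3 a b x = 0 := by
  obtain ⟨c, hc⟩ := lin3 g
  simp only [hc, D3]
  ring

theorem D3_rot (x y z : Fin 3 → ℝ) : D3 x y z = D3 y z x := by
  simp only [D3]; ring

theorem D3_swap (x y z : Fin 3 → ℝ) : D3 x z y = - D3 x y z := by
  simp only [D3]; ring

/-- nondegeneracy -/
theorem D3_ne_zero {x y z : Fin 3 → ℝ} {gx gy gz : (Fin 3 → ℝ) →ₗ[ℝ] ℝ}
    (hxx : gx x = 0) (hxy : 0 < gx y) (hxz : 0 < gx z)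
    (hyx : 0 < gy x) (hyy : gy y = 0) (hyz : 0 < gy z)
    (hzx : 0 < gz x) (hzy : 0 < gz y) (hzz : gz z = 0) : D3 x y z ≠ 0 := by
  intro h0
  obtain ⟨c, hc⟩ := lin3 gx
  obtain ⟨e, he⟩ := lin3 gy
  set b : Fin 3 → ℝ := ![c 1 * e 2 - c 2 * e 1, c 2 * e 0 - c 0 * e 2, c 0 * e 1 - c 1 * e 0] with hb
  have hC : D3 x y b = - (gx y * gy x) := by
    have h1 : D3 x y b = gx x * gy y - gx y * gy x := by
      simp only [D3, hb, hc, he, Matrix.cons_val_zero, Matrix.cons_val_one, Matrix.cons_val]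
      ring
    rw [h1, hxx, hyy]; ring
  have h1 := pluecker gx x y z b
  have h2 := pluecker gy x y z b
  have h3 := pluecker gz x y z b
  rw [h0] at h1 h2 h3
  rw [hxx] at h1
  rw [hyy] at h2
  rw [hzz] at h3
  -- h1 : 0 - gx y * B + gx z * C - .. = 0
  have e1 : gx y * D3 x z b = gx z * D3 x y b := by linarith
  have e2 : gy x * D3 y z b = - (gy z * D3 x y b) := by linarith
  have e3 : gz x * D3 y z b = gz y * D3 x z b := by linarith
  have hCneg : D3 x y b < 0 := by rw [hC]; have := mul_pos hxy hyx; linarith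
  have hBneg : D3 x z b < 0 := by
    by_contra hge
    push Not at hge
    have h5 : 0 ≤ gx y * D3 x z b := mul_nonneg hxy.le hge
    have h6 : gx z * D3 x y b < 0 := mul_neg_of_pos_of_neg hxz hCneg
    linarith
  have hApos : 0 < D3 y z b := by
    by_contra hle
    push Not at hle
    have h5 : gy x * D3 y z b ≤ 0 := mul_nonpos_of_nonneg_of_nonpos hyx.le hle
    have h6 : gy z * D3 x y b < 0 := mul_neg_of_pos_of_neg hyz hCneg
    linarith
  have h5 : 0 < gz x * D3 y z b := mul_pos hzx hApos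
  have h6 : gz y * D3 x z b < 0 := mul_neg_of_pos_of_neg hzy hBneg
  linarith

/-- The four point lemma: two crossing chords cannot both be exposed. -/
theorem no_cross {a c b d : Fin 3 → ℝ} {φ ψ : (Fin 3 → ℝ) →ₗ[ℝ] ℝ}
    (h1 : 0 < D3 c b d) (h2 : 0 < D3 a b d) (h3 : 0 < D3 a c d) (h4 : 0 < D3 a c b)
    (hφ : φ a = φ b) (hφ0 : 0 < φ a) (hφc : φ c < φ a) (hφd : φ d < φ a)
    (hψ : ψ c = ψ d) (hψ0 : 0 < ψ c) (hψa : ψ a < ψ c) (hψb : ψ b < ψ c) : False := by
  have e1 := pluecker φ a c b d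
  have e2 := pluecker ψ a c b d
  rw [← hφ] at e1
  rw [← hψ] at e2
  have i1 : φ a * (D3 c b d + D3 a c d) < φ a * (D3 a b d + D3 a c b) := by
    have j1 : φ c * D3 a b d < φ a * D3 a b d := mul_lt_mul_of_pos_right hφc h2
    have j2 : φ d * D3 a c b < φ a * D3 a c b := mul_lt_mul_of_pos_right hφd h4
    nlinarith
  have i2 : ψ c * (D3 a b d + D3 a c b) < ψ c * (D3 c b d + D3 a c d) := by
    have j1 : ψ a * D3 c b d < ψ c * D3 c b d := mul_lt_mul_of_pos_right hψa h1
    have j2 : ψ b * D3 a c d < ψ c * D3 a c d := mul_lt_mul_of_pos_right hψb h3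
    nlinarith
  have k1 := lt_of_mul_lt_mul_left i1 hφ0.le
  have k2 := lt_of_mul_lt_mul_left i2 hψ0.le
  linarith

/-- Sorting: a family of vectors in `ℝ^3`, each of which spans an exposed ray of the cone
generated by the family, can be enumerated, starting at any given member, in such a way that all
determinants are positive. -/
theorem exists_order {U : Type} [Fintype U] (a : U → (Fin 3 → ℝ))
    (hg : ∀ u, ∃ g : (Fin 3 → ℝ) →ₗ[ℝ] ℝ, g (a u) = 0 ∧ ∀ z, z ≠ u → 0 < g (a z)) (u0 : U)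
    {m : ℕ} (hm : Fintype.card U = m) (hm0 : 0 < m) :
    ∃ e : Fin m ≃ U, e ⟨0, hm0⟩ = u0 ∧
      ∀ i j l : Fin m, i < j → j < l → 0 < D3 (a (e i)) (a (e j)) (a (e l)) := by
  classical
  choose g hg0 hgpos using hg
  have hnz : ∀ x y z : U, x ≠ y → x ≠ z → y ≠ z → D3 (a x) (a y) (a z) ≠ 0 := by
    intro x y z hxy hxz hyz
    exact D3_ne_zero (hg0 x) (hgpos x y hxy.symm) (hgpos x z hxz.symm) (hgpos y x hxy) (hg0 y)
      (hgpos y z hyz.symm) (hgpos z x hxz) (hgpos z y hyz) (hg0 z)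
  -- the slope function
  obtain ⟨t, ht⟩ : ∃ t : U → ℝ, ∀ y z, y ≠ u0 → z ≠ u0 →
      D3 (a u0) (a y) (a z) = g u0 (a y) * g u0 (a z) * (t z - t y) := by
    by_cases hex : ∃ w, w ≠ u0
    · obtain ⟨w, hw⟩ := hex
      have hwpos := hgpos u0 w hw
      refine ⟨fun z => D3 (a u0) (a w) (a z) / (g u0 (a w) * g u0 (a z)), ?_⟩
      intro y z hy hz
      have hypos := hgpos u0 y hy
      have hzpos := hgpos u0 z hz
      have hp := pluecker (g u0) (a u0) (a w) (a y) (a z)
      rw [hg0] at hp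
      field_simp
      linarith
    · push Not at hex
      exact ⟨fun _ => 0, fun y z hy _ => absurd (hex y) hy⟩
  set τ : U → WithBot ℝ := fun u => if u = u0 then ⊥ else (t u : WithBot ℝ) with hτ
  have hτinj : Function.Injective τ := by
    intro x y hxy
    by_contra hne
    by_cases hx : x = u0
    · by_cases hy : y = u0
      · exact hne (hx.trans hy.symm)
      · simp [hτ, hx, hy] at hxy
    · by_cases hy : y = u0
      · simp [hτ, hx, hy] at hxy
      · simp only [hτ, hx, hy, if_false, WithBot.coe_inj] at hxy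
        have h1 := ht x y hx hy
        rw [hxy, sub_self, mul_zero] at h1
        exact hnz u0 x y (Ne.symm hx) (Ne.symm hy) hne h1
  let _ : LinearOrder U := LinearOrder.lift' τ hτinj
  have hlt : ∀ x y : U, x < y ↔ τ x < τ y := fun x y => Iff.rfl
  have hle : ∀ x y : U, x ≤ y ↔ τ x ≤ τ y := fun x y => Iff.rfl
  let e : Fin m ≃o U := Fintype.orderIsoFinOfCardEq U hm
  have hu0min : ∀ u : U, u0 ≤ u := fun u => by
    rw [hle]; simp [hτ]
  have he0 : e ⟨0, hm0⟩ = u0 := by
    apply le_antisymm _ (hu0min _)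
    rw [← e.apply_symm_apply u0]
    apply e.monotone
    exact Nat.zero_le _
  refine ⟨e.toEquiv, he0, ?_⟩
  have key : ∀ x y : U, x ≠ u0 → x < y → 0 < D3 (a u0) (a x) (a y) := by
    intro x y hx hxy
    have hy : y ≠ u0 := by
      rintro rfl
      exact absurd hxy (not_lt.2 (hu0min x))
    rw [ht x y hx hy]
    rw [hlt] at hxy
    simp only [hτ, hx, hy, if_false, WithBot.coe_lt_coe] at hxy
    have := hgpos u0 x hx
    have := hgpos u0 y hy
    have : 0 < t y - t x := sub_pos.2 hxy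
    positivity
  intro i j l hij hjl
  have hxy : e i < e j := e.strictMono hij
  have hyz : e j < e l := e.strictMono hjl
  show 0 < D3 (a (e i)) (a (e j)) (a (e l))
  by_cases hi : e i = u0
  · have hj : e j ≠ u0 := by
      intro h; rw [h] at hxy; exact absurd hxy (not_lt.2 (hu0min _))
    rw [hi]
    exact key _ _ hj hyz
  · have hj : e j ≠ u0 := by
      intro h; rw [h] at hxy; exact absurd hxy (not_lt.2 (hu0min _))
    have hl : e l ≠ u0 := by
      intro h; rw [h] at hyz; exact absurd hyz (not_lt.2 (hu0min _))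
    have d1 := key _ _ hj hyz
    have d2 := key _ _ hi hxy
    have hp := pluecker (g (e j)) (a u0) (a (e i)) (a (e j)) (a (e l))
    rw [hg0] at hp
    have p0 := hgpos (e j) u0 (Ne.symm hj)
    have p1 := hgpos (e j) (e i) hxy.ne
    have p2 := hgpos (e j) (e l) hyz.ne'
    have s1 := mul_pos p1 d1
    have s2 := mul_pos p2 d2
    have : 0 < g (e j) (a u0) * D3 (a (e i)) (a (e j)) (a (e l)) := by linarith
    exact (mul_pos_iff_of_pos_left p0).1 this

end Pool.Agent.H.MP_2da123_co.S61
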