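import Pool.Agent.H.MP_2da123_co.helper61.Lower

/-!
# The structure of a `3`-polytope graph with a universal vertex
-/

open Set Filter

namespace Pool.Agent.H.MP_2da123_co.S61

/-- For finitely many positive numbers `D` and arbitrary numbers `x`, some `M` satisfies
`x < M * D` simultaneously. -/
theorem exists_big {U : Type} [Finite U] (S : U → Prop) (x D : U → ℝ)
    (hD : ∀ u, S u → 0 < D u) : ∃ M : ℝ, ∀ u, S u → x u < M * D u := by
  have h : ∀ᶠ M : ℝ in atTop, ∀ u, S u → x u < M * D u := by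
    rw [eventually_all]
    intro u
    by_cases hS : S u
    · filter_upwards [eventually_gt_atTop (x u / D u)] with M hM _
      rwa [div_lt_iff₀ (hD u hS)] at hM
    · exact Eventually.of_forall fun M h => absurd h hS
  exact h.exists

/-- functionals exposing the edges at a universal vertex, in difference form -/
theorem diff_functional {W : Type} {d : ℕ} {p : W → Eu d} {k w : W}
    (h : EExp p k w) :
    ∃ g : Eu d →ₗ[ℝ] ℝ, g (p w - p k) = 0 ∧
      ∀ z, z ≠ k → z ≠ w → 0 < g (p z - p k) := by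
  obtain ⟨f, hf, hz⟩ := h
  refine ⟨-f, ?_, ?_⟩
  · rw [LinearMap.neg_apply, map_sub, hf]; ring
  · intro z h1 h2
    have := hz z h1 h2
    rw [LinearMap.neg_apply, map_sub]; linarith

theorem univ_structure {W : Type} [Finite W] {p : W → Eu 3} {k : W}
    (hk : ∀ w, w ≠ k → EExp p k w) [Fintype {w // w ≠ k}] (u0 : {w // w ≠ k}) {m : ℕ}
    (hm : Fintype.card {w // w ≠ k} = m) (hm3 : 3 ≤ m) :
    ∃ e : Fin m ≃ {w // w ≠ k}, e ⟨0, by omega⟩ = u0 ∧
      (∀ i j : Fin m, (j : ℕ) = ((i : ℕ) + 1) % m → EExp p (e i) (e j)) ∧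
      (∀ i j l q : Fin m, i < j → j < l → l < q →
        ¬ (EExp p (e i) (e l) ∧ EExp p (e j) (e q))) := by
  classical
  set a : {w // w ≠ k} → (Fin 3 → ℝ) := fun u => p u - p k with ha
  have hg : ∀ u : {w // w ≠ k}, ∃ g : (Fin 3 → ℝ) →ₗ[ℝ] ℝ, g (a u) = 0 ∧
      ∀ z, z ≠ u → 0 < g (a z) := by
    intro u
    obtain ⟨g, hg0, hgz⟩ := diff_functional (hk u u.2)
    refine ⟨g, hg0, fun z hz => hgz z z.2 (fun h => hz (Subtype.ext h))⟩
  obtain ⟨e, he0, hpos⟩ := exists_order a hg u0 hm (by omega)
  refine ⟨e, he0, ?_, ?_⟩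
  · intro i j hij
    have hne : e i ≠ e j := by
      intro h
      have h2 := e.injective h
      have h3 : (i : ℕ) = j := by rw [h2]
      have := i.2
      rcases Nat.lt_or_ge ((i : ℕ) + 1) m with h4 | h4
      · rw [Nat.mod_eq_of_lt h4] at hij; omega
      · have : (i : ℕ) + 1 = m := by omega
        rw [this, Nat.mod_self] at hij; omega
    -- positivity of the determinants
    have hD : ∀ l : Fin m, l ≠ i → l ≠ j → 0 < D3 (a (e i)) (a (e j)) (a (e l)) := by
      intro l hli hlj
      have hli' : (l : ℕ) ≠ i := fun h => hli (Fin.ext h)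
      have hlj' : (l : ℕ) ≠ j := fun h => hlj (Fin.ext h)
      have := i.2
      have := l.2
      rcases Nat.lt_or_ge ((i : ℕ) + 1) m with h4 | h4
      · rw [Nat.mod_eq_of_lt h4] at hij
        rcases lt_or_gt_of_ne hli' with h5 | h5
        · rw [← D3_rot]
          exact hpos l i j h5 (by show (i : ℕ) < j; omega)
        · exact hpos i j l (by show (i : ℕ) < j; omega) (by show (j : ℕ) < l; omega)
      · have h6 : (i : ℕ) + 1 = m := by omega
        rw [h6, Nat.mod_self] at hij
        rw [D3_rot]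
        exact hpos j l i (by show (j : ℕ) < l; omega) (by show (l : ℕ) < i; omega)
    obtain ⟨gi, hgi0, hgiz⟩ := hg (e i)
    obtain ⟨gj, hgj0, hgjz⟩ := hg (e j)
    have hgij := hgiz (e j) hne.symm
    have hgji := hgjz (e i) hne
    -- the functional equal to one at both points
    set h : (Fin 3 → ℝ) →ₗ[ℝ] ℝ := (gi (a (e j)))⁻¹ • gi + (gj (a (e i)))⁻¹ • gj with hh
    have hhi : h (a (e i)) = 1 := by
      rw [hh, LinearMap.add_apply, LinearMap.smul_apply, LinearMap.smul_apply, hgi0, smul_zero,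
        zero_add, smul_eq_mul, inv_mul_cancel₀ hgji.ne']
    have hhj : h (a (e j)) = 1 := by
      rw [hh, LinearMap.add_apply, LinearMap.smul_apply, LinearMap.smul_apply, hgj0, smul_zero,
        add_zero, smul_eq_mul, inv_mul_cancel₀ hgij.ne']
    obtain ⟨M, hM⟩ := exists_big (fun l : Fin m => l ≠ i ∧ l ≠ j) (fun l => h (a (e l)) - 1)
      (fun l => D3 (a (e i)) (a (e j)) (a (e l))) (fun l hl => hD l hl.1 hl.2)
    -- the determinant functional
    set x := a (e i) with hx
    set y := a (e j) with hy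
    set F : (Fin 3 → ℝ) →ₗ[ℝ] ℝ := mk3 ![x 1 * y 2 - x 2 * y 1, x 2 * y 0 - x 0 * y 2,
      x 0 * y 1 - x 1 * y 0] with hF
    have hFe : ∀ z, F z = D3 x y z := by
      intro z
      simp only [hF, mk3_apply, D3, Matrix.cons_val_zero, Matrix.cons_val_one, Matrix.cons_val]
      ring
    have hFx : F x = 0 := by rw [hFe]; simp only [D3]; ring
    have hFy : F y = 0 := by rw [hFe]; simp only [D3]; ring
    set f : (Fin 3 → ℝ) →ₗ[ℝ] ℝ := h - M • F with hf
    have hfa : ∀ z : Fin 3 → ℝ, f z = h z - M * F z := by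
      intro z; simp [hf]
    have hval : ∀ w : W, f (p w) = f (p k) + f (p w - p k) := by
      intro w; rw [map_sub]; ring
    have hfi : f (p (e i) - p k) = 1 := by
      show f x = 1
      rw [hfa, hhi, hFx]; ring
    have hfj : f (p (e j) - p k) = 1 := by
      show f y = 1
      rw [hfa, hhj, hFy]; ring
    refine ⟨f, ?_, ?_⟩
    · rw [hval (e i), hval (e j), hfi, hfj]
    · intro z hzi hzj
      rw [hval z, hval (e i), hfi]
      by_cases hzk : z = k
      · rw [hzk, sub_self, map_zero]; linarith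
      · obtain ⟨l, hl⟩ := e.surjective ⟨z, hzk⟩
        have hli : l ≠ i := by
          rintro rfl; exact hzi (by rw [hl])
        have hlj : l ≠ j := by
          rintro rfl; exact hzj (by rw [hl])
        have h1 := hM l ⟨hli, hlj⟩
        simp only [hl] at h1
        have h2 : f (p z - p k) < 1 := by
          show f (a ⟨z, hzk⟩) < 1
          rw [hfa, hFe]
          linarith
        linarith
  · rintro i j l q hij hjl hlq ⟨⟨φ, hφ, hφz⟩, ⟨ψ, hψ, hψz⟩⟩
    have hil : i < l := hij.trans hjl
    have hjq : j < q := hjl.trans hlq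
    have hiq : i < q := hil.trans hlq
    have nval : ∀ {s t : Fin m}, s ≠ t → ((e s : {w // w ≠ k}) : W) ≠ e t := by
      intro s t hst h
      exact hst (e.injective (Subtype.ext h))
    have hv : ∀ (f : Eu 3 →ₗ[ℝ] ℝ) (u : {w // w ≠ k}), f (a u) = f (p u) - f (p k) := by
      intro f u; rw [← map_sub]
    apply no_cross (a := a (e i)) (c := a (e j)) (b := a (e l)) (d := a (e q)) (φ := φ) (ψ := ψ)
      (hpos j l q hjl hlq) (hpos i l q hil hlq) (hpos i j q hij hjq) (hpos i j l hij hjl)
    · rw [hv, hv, hφ]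
    · rw [hv]; have := hφz k (e i).2.symm (e l).2.symm; linarith
    · rw [hv, hv]; have := hφz (e j) (nval hij.ne') (nval hjl.ne); linarith
    · rw [hv, hv]; have := hφz (e q) (nval hiq.ne') (nval hlq.ne'); linarith
    · rw [hv, hv, hψ]
    · rw [hv]; have := hψz k (e j).2.symm (e q).2.symm; linarith
    · rw [hv, hv]; have := hψz (e i) (nval hij.ne) (nval hiq.ne); linarith
    · rw [hv, hv]; have := hψz (e l) (nval hjl.ne') (nval hlq.ne); linarith

end Pool.Agent.H.MP_2da123_co.S61
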