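import Pool.Agent.H.MP_2da123_co.helper61.Lower2

/-!
# Lower bounds for the dimension of polytopal joins
-/

open Set

namespace Pool.Agent.H.MP_2da123_co.S61

/-- A configuration for a join, with the universal vertex `inr 0`. -/
theorem config_of_polytopal {V : Type} [Finite V] {G : SimpleGraph V} {n d : ℕ} (hn : 1 ≤ n)
    (h : IsPolytopal d (joinComplete G n)) :
    ∃ p : V ⊕ Fin n → Eu d, (∀ w, VExp p w) ∧
      (∀ w w', w ≠ w' → ((joinComplete G n).Adj w w' ↔ EExp p w w')) ∧
      (∀ w, w ≠ Sum.inr ⟨0, hn⟩ → EExp p (Sum.inr ⟨0, hn⟩) w) := by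
  obtain ⟨p, -, hv, hadj⟩ := (isPolytopal_iff (d := d) (joinComplete G n)).1 h
  refine ⟨p, hv, hadj, ?_⟩
  intro w hw
  rw [← hadj _ _ hw.symm]
  rcases w with v | i
  · trivial
  · intro hi
    exact hw (by rw [hi])

theorem dim0_false {V : Type} [Finite V] [Nonempty V] {G : SimpleGraph V} {n : ℕ} (hn : 1 ≤ n)
    (h : IsPolytopal 0 (joinComplete G n)) : False := by
  obtain ⟨p, hv, -, -⟩ := config_of_polytopal hn h
  have hinj := injective_of_VExp hv
  obtain ⟨v⟩ := ‹Nonempty V›
  have h1 : p (Sum.inl v) = p (Sum.inr ⟨0, hn⟩) := by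
    ext i; exact i.elim0
  have h2 := hinj h1
  exact absurd h2 (by simp)

/-- In dimension one a universal vertex has at most one neighbour. -/
theorem dim1_others {W : Type} {p : W → Eu 1} {k : W} (hk : ∀ w, w ≠ k → EExp p k w)
    {x y : W} (hx : x ≠ k) (hy : y ≠ k) (hxy : x ≠ y) : False := by
  obtain ⟨f, hf0, hfz⟩ := diff_functional (hk x hx)
  obtain ⟨g, hg0, hgz⟩ := diff_functional (hk y hy)
  have h1 := hfz y hy hxy.symm
  have h2 := hgz x hx hxy
  have lin : ∀ l : Eu 1 →ₗ[ℝ] ℝ, ∀ v : Eu 1, l v = v 0 * l (fun _ => 1) := by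
    intro l v
    have : v = v 0 • (fun _ => (1 : ℝ)) := by
      ext i
      have : i = 0 := Subsingleton.elim _ _
      subst this
      simp
    conv_lhs => rw [this]
    rw [map_smul, smul_eq_mul]
  rw [lin] at hf0 h1 h2
  rcases mul_eq_zero.1 hf0 with h3 | h3
  · rw [h3, zero_mul] at h2
    exact lt_irrefl _ h2
  · rw [h3, mul_zero] at h1
    exact lt_irrefl _ h1

/-- In dimension two a universal vertex has at most two neighbours. -/
theorem dim2_others {W : Type} {p : W → Eu 2} {k : W} (hk : ∀ w, w ≠ k → EExp p k w)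
    {x y z : W} (hx : x ≠ k) (hy : y ≠ k) (hz : z ≠ k) (hxy : x ≠ y) (hxz : x ≠ z)
    (hyz : y ≠ z) : False := by
  have lin : ∀ l : Eu 2 →ₗ[ℝ] ℝ, ∃ c : Fin 3 → ℝ, ∀ v : Eu 2, l v = mk3 c ![v 0, v 1, 0] := by
    intro l
    refine ⟨![l (fun j => if 0 = j then 1 else 0), l (fun j => if 1 = j then 1 else 0), 0],
      fun v => ?_⟩
    rw [LinearMap.pi_apply_eq_sum_univ l v, Fin.sum_univ_two]
    simp only [smul_eq_mul, mk3_apply, Matrix.cons_val_zero, Matrix.cons_val_one, Matrix.cons_val]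
    ring
  obtain ⟨f, hf0, hfz⟩ := diff_functional (hk x hx)
  obtain ⟨g, hg0, hgz⟩ := diff_functional (hk y hy)
  obtain ⟨h, hh0, hhz⟩ := diff_functional (hk z hz)
  obtain ⟨cf, hcf⟩ := lin f
  obtain ⟨cg, hcg⟩ := lin g
  obtain ⟨ch, hch⟩ := lin h
  have a1 := hfz y hy hxy.symm
  have a2 := hfz z hz hxz.symm
  have a3 := hgz x hx hxy
  have a4 := hgz z hz hyz.symm
  have a5 := hhz x hx hxz
  have a6 := hhz y hy hyz
  rw [hcf] at hf0 a1 a2
  rw [hcg] at hg0 a3 a4
  rw [hch] at hh0 a5 a6
  refine D3_ne_zero hf0 a1 a2 a3 hg0 a4 a5 a6 hh0 ?_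
  simp only [D3, Matrix.cons_val_zero, Matrix.cons_val_one, Matrix.cons_val]
  ring

/-- If a universal vertex has exactly two neighbours, these are adjacent. -/
theorem two_others_adj {W : Type} {d : ℕ} {p : W → Eu d} {k : W}
    (hk : ∀ w, w ≠ k → EExp p k w)
    {x y : W} (hx : x ≠ k) (hy : y ≠ k) (hxy : x ≠ y) (hall : ∀ w, w = k ∨ w = x ∨ w = y) :
    EExp p x y := by
  obtain ⟨f, hf0, hfz⟩ := diff_functional (hk x hx)
  obtain ⟨g, hg0, hgz⟩ := diff_functional (hk y hy)
  have h1 := hfz y hy hxy.symm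
  have h2 := hgz x hx hxy
  set h : Eu d →ₗ[ℝ] ℝ := (f (p y - p k))⁻¹ • f + (g (p x - p k))⁻¹ • g with hh
  have hhx : h (p x - p k) = 1 := by
    rw [hh, LinearMap.add_apply, LinearMap.smul_apply, LinearMap.smul_apply, hf0, smul_zero,
      zero_add, smul_eq_mul, inv_mul_cancel₀ h2.ne']
  have hhy : h (p y - p k) = 1 := by
    rw [hh, LinearMap.add_apply, LinearMap.smul_apply, LinearMap.smul_apply, hg0, smul_zero,
      add_zero, smul_eq_mul, inv_mul_cancel₀ h1.ne']
  rw [map_sub] at hhx hhy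
  refine ⟨h, by linarith, ?_⟩
  intro z hzx hzy
  rcases hall z with rfl | rfl | rfl
  · linarith
  · exact absurd rfl hzx
  · exact absurd rfl hzy

theorem dim1_card {V : Type} [Fintype V] {G : SimpleGraph V} {n : ℕ} (hn : 1 ≤ n)
    (h : IsPolytopal 1 (joinComplete G n)) : Fintype.card V ≤ 1 := by
  obtain ⟨p, -, -, hk⟩ := config_of_polytopal hn h
  by_contra hcard
  push Not at hcard
  obtain ⟨x, y, hxy⟩ := Fintype.one_lt_card_iff.1 hcard
  exact dim1_others hk (x := Sum.inl x) (y := Sum.inl y) (by simp) (by simp)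
    (fun h => hxy (Sum.inl_injective h))

theorem dim2_cases {V : Type} [Fintype V] {G : SimpleGraph V} {n : ℕ} (hn : 1 ≤ n)
    (h : IsPolytopal 2 (joinComplete G n)) :
    Fintype.card V ≤ 1 ∨ (Fintype.card V = 2 ∧ G = ⊤) := by
  obtain ⟨p, -, hadj, hk⟩ := config_of_polytopal hn h
  rcases Nat.lt_or_ge (Fintype.card V) 2 with hc | hc
  · left; omega
  · right
    have hc3 : ¬ 3 ≤ Fintype.card V := by
      intro h3
      obtain ⟨x, y, z, hxy, hxz, hyz⟩ := Fintype.two_lt_card_iff.1 h3
      exact dim2_others hk (x := Sum.inl x) (y := Sum.inl y) (z := Sum.inl z) (by simp) (by simp)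
        (by simp) (fun h => hxy (Sum.inl_injective h)) (fun h => hxz (Sum.inl_injective h))
        (fun h => hyz (Sum.inl_injective h))
    have hc2 : Fintype.card V = 2 := by omega
    refine ⟨hc2, ?_⟩
    have hn1 : n = 1 := by
      by_contra hne
      obtain ⟨x, y, hxy⟩ := Fintype.one_lt_card_iff.1 (show 1 < Fintype.card V by omega)
      refine dim2_others hk (x := Sum.inl x) (y := Sum.inl y) (z := Sum.inr ⟨1, by omega⟩)
        (by simp) (by simp) ?_ (fun h => hxy (Sum.inl_injective h)) (by simp) (by simp)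
      intro h
      have := Sum.inr_injective h
      simp [Fin.ext_iff] at this
    subst hn1
    ext x y
    rw [SimpleGraph.top_adj]
    constructor
    · intro h; exact h.ne
    · intro hxy
      have hE := two_others_adj hk (x := Sum.inl x) (y := Sum.inl y) (by simp) (by simp)
        (fun h => hxy (Sum.inl_injective h)) ?_
      · exact (hadj (Sum.inl x) (Sum.inl y) (fun h => hxy (Sum.inl_injective h))).2 hE
      · rintro (v | i)
        · right
          by_contra hcon
          push Not at hcon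
          have : 2 < Fintype.card V := Fintype.two_lt_card_iff.2
            ⟨x, y, v, hxy, fun h => hcon.1 (by rw [h]), fun h => hcon.2 (by rw [h])⟩
          omega
        · left
          congr 1
          exact Subsingleton.elim _ _

end Pool.Agent.H.MP_2da123_co.S61
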